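import Pool.Agent.Helper73.C3.One
import Pool.Agent.Helper57.TD.Flip

/-!
# Flexible links

`flex`: let `R` be a set with `Nb G R = {a, b, k}` and nonempty rest such that `restr G R - k` is not
balanced. Then `restr G R - k` contains `a`-`b` paths of both labels.
-/

set_option autoImplicit false

namespace Pool.Agent.Helper73.C3

open SimpleGraph Pool.Agent.Helper57.TOK Pool.Agent.Helper57.TD Pool.Agent.Helper82.TK
  Pool.Agent.Helper1.TD Pool.Agent.Helper1.GL

variable {V : Type*}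

/-- **Flexible links.** -/
theorem flex [Finite V] {G : SimpleGraph V} {c : Sym2 V → ZMod 2} {U R : Set V} {a b k : V}
    (he : ∀ u v, G.Adj u v → u ∈ U)
    (hconn : ∀ Y ⊆ U, 2 ≤ Y.ncard → (Nb G Y).ncard ≤ 2 → (U \ (Y ∪ Nb G Y)).ncard ≤ 1)
    (hR : R ⊆ U) (hN : Nb G R = {a, b, k}) (hab : a ≠ b) (hak : a ≠ k) (hbk : b ≠ k)
    (hrest : (U \ (R ∪ Nb G R)).Nonempty)
    (hnb : ∀ κ : V → ZMod 2, ¬ ∀ u v, u ∈ R → v ≠ k → G.Adj u v → c s(u, v) = κ u + κ v)
    (t : ZMod 2) :
    ∃ p : (restr G R).Walk a b, p.IsPath ∧ wt c p = t ∧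
      ∀ x ∈ p.support, (x ∈ R ∨ x = a ∨ x = b) ∧ x ≠ k := by
  classical
  obtain ⟨m, hmU, hmRN⟩ := hrest
  have hmR : m ∉ R := fun h => hmRN (Or.inl h)
  have hmN : m ∉ Nb G R := fun h => hmRN (Or.inr h)
  have haN : a ∈ Nb G R := by rw [hN]; simp
  have hbN : b ∈ Nb G R := by rw [hN]; simp
  have hkN : k ∈ Nb G R := by rw [hN]; simp
  have hU : ∀ x ∈ Nb G R, x ∈ U := by
    rintro x ⟨-, y, -, hyx⟩
    exact he x y hyx.symm
  have hkR : k ∉ R := hkN.1
  have hkm : k ≠ m := fun h => hmN (h ▸ hkN)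
  have ham : a ≠ m := fun h => hmN (h ▸ haN)
  have hbm : b ≠ m := fun h => hmN (h ▸ hbN)
  set H : SimpleGraph V := delG (restr G R) {k} with hH
  have hHadj : ∀ {x y}, H.Adj x y ↔ G.Adj x y ∧ (x ∈ R ∨ y ∈ R) ∧ x ≠ k ∧ y ≠ k := by
    intro x y
    rw [hH, delG_adj, restr_adj, Set.mem_singleton_iff, Set.mem_singleton_iff]
    tauto
  have hHR : ∀ x y, H.Adj x y → y ∈ R ∨ y = a ∨ y = b := by
    intro x y hxy
    rw [hHadj] at hxy
    obtain ⟨h1, h2, -, h4⟩ := hxy
    by_cases hy : y ∈ R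
    · exact Or.inl hy
    · have h3 : y ∈ Nb G R := ⟨hy, x, h2.resolve_right hy, h1⟩
      rw [hN] at h3
      rcases h3 with h3 | h3 | h3
      · exact Or.inr (Or.inl h3)
      · exact Or.inr (Or.inr h3)
      · exact absurd h3 h4
  have hk0 : ∀ x, ¬ H.Adj k x := fun x h => (hHadj.1 h).2.2.1 rfl
  have hm0 : ∀ x, ¬ H.Adj m x := by
    intro x h
    rcases hHR x m h.symm with h1 | h1 | h1
    · exact hmR h1
    · exact ham h1.symm
    · exact hbm h1.symm
  rcases one_path (H := H) (c := c) hab hak ham hbk hbm hkm hk0 hm0 t with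
    ⟨P, hP, hPw⟩ | ⟨A1, ρ, haA, hbA, hkA, hmA, hρ, hedge, hwalk⟩
  · have hle : H ≤ restr G R := delG_le _ _
    refine ⟨P.mapLe hle, hP.mapLe hle, ?_, ?_⟩
    · rw [wt_mapLe]; exact hPw
    · intro x hx
      rw [Walk.support_mapLe_eq_support] at hx
      have h1 : ∀ x ∈ P.support, x ∈ {x | (x ∈ R ∨ x = a ∨ x = b) ∧ x ≠ k} := by
        apply walk_closed _ P
        · exact ⟨Or.inr (Or.inl rfl), hak⟩
        · intro x y _ hxy
          exact ⟨hHR x y hxy, (hHadj.1 hxy).2.2.2⟩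
      exact h1 x hx
  · exfalso
    -- no edge between outside vertices
    have hout : ∀ x y, x ∈ R → x ∉ A1 → y ∉ A1 → ¬ H.Adj x y := by
      intro x y hxR hxA hyA hxy
      set C : Set V := Reach H {x} A1 with hC
      have hxC : x ∈ C := reach_of_mem rfl hxA
      have hyC : y ∈ C := reach_adj hxC hxy hyA
      have hCA : ∀ z ∈ C, z ∉ A1 := fun z hz => not_mem_of_reach hz
      have hCR : C ⊆ R := by
        intro z hz
        have hzA := hCA z hz
        obtain ⟨w, hw, p, hp⟩ := hz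
        rw [Set.mem_singleton_iff] at hw
        subst hw
        have h1 : z ∈ {z | z ∈ R ∨ z = a ∨ z = b} :=
          walk_closed (fun u v _ huv => hHR u v huv) p (Or.inl hxR) z p.end_mem_support
        rcases h1 with h1 | h1 | h1
        · exact h1
        · exact absurd (h1 ▸ haA) hzA
        · exact absurd (h1 ▸ hbA) hzA
      -- neighbours of C
      have hNC : ∀ w ∈ Nb G C, w = k ∨ (w ∈ A1 ∧ w ∈ Nb H C) := by
        rintro w ⟨hwC, z, hz, hzw⟩
        by_cases hwk : w = k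
        · exact Or.inl hwk
        right
        have hzR := hCR hz
        have hzk : z ≠ k := fun h => hkR (h ▸ hzR)
        have h1 : H.Adj z w := hHadj.2 ⟨hzw, Or.inl hzR, hzk, hwk⟩
        refine ⟨?_, hwC, z, hz, h1⟩
        by_contra hwA
        exact hwC (reach_adj hz h1 hwA)
      have huq : ∀ w ∈ Nb G C, ∀ w' ∈ Nb G C, w ≠ k → w' ≠ k → w = w' := by
        intro w hw w' hw' h1 h2
        by_contra hne
        obtain ⟨h3, -, u', ⟨s, hs, p, hp⟩, huw⟩ := (hNC w hw).resolve_left h1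
        obtain ⟨h4, -, v', ⟨s', hs', q, hq⟩, hvw⟩ := (hNC w' hw').resolve_left h2
        rw [Set.mem_singleton_iff] at hs hs'
        subst hs
        subst hs'
        refine hwalk w h3 w' h4 hne u' v' huw.symm hvw.symm (p.reverse.append q) ?_
        intro z hz
        rw [Walk.mem_support_append_iff, Walk.support_reverse, List.mem_reverse] at hz
        rcases hz with hz | hz
        · exact hp z hz
        · exact hq z hz
      have hN2 : (Nb G C).ncard ≤ 2 := by
        by_cases hex : ∃ w ∈ Nb G C, w ≠ k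
        · obtain ⟨w, hw, hwk⟩ := hex
          have h1 : Nb G C ⊆ {k, w} := by
            intro z hz
            by_cases hzk : z = k
            · exact Or.inl hzk
            · exact Or.inr (huq z hz w hw hzk hwk)
          exact (Set.ncard_le_ncard h1 (Set.toFinite _)).trans (ncard_pair_le' _ _)
        · push Not at hex
          have h1 : Nb G C ⊆ {k, k} := fun z hz => Or.inl (hex z hz)
          exact (Set.ncard_le_ncard h1 (Set.toFinite _)).trans (ncard_pair_le' _ _)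
      have hr := hconn C (hCR.trans hR) (two_le_ncard_of hxC hyC hxy.ne) hN2
      have hmr : m ∈ U \ (C ∪ Nb G C) := by
        refine ⟨hmU, ?_⟩
        rintro (h1 | h1)
        · exact hmR (hCR h1)
        · obtain ⟨-, z, hz, hzm⟩ := h1
          exact hmN ⟨hmR, z, hCR hz, hzm⟩
      have hab' : ∀ z, z ∈ Nb G R → z ∈ A1 → z ∉ Nb G C → z = m := by
        intro z hz hzA hzN
        apply eq_of_ncard_le_one hr _ hmr
        refine ⟨hU z hz, ?_⟩
        rintro (h1 | h1)
        · exact hCA z h1 hzA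
        · exact hzN h1
      by_cases h1 : a ∈ Nb G C
      · by_cases h2 : b ∈ Nb G C
        · exact hab (huq a h1 b h2 hak hbk)
        · exact hbm (hab' b hbN hbA h2)
      · exact ham (hab' a haN haA h1)
    have huniq : ∀ x y y', x ∉ A1 → y ∈ A1 → y' ∈ A1 → H.Adj x y → H.Adj x y' → y = y' := by
      intro x y y' hx hy hy' hxy hxy'
      by_contra hne
      refine hwalk y hy y' hy' hne x x hxy.symm hxy'.symm Walk.nil ?_
      intro z hz
      simp only [Walk.support_nil, List.mem_cons, List.not_mem_nil, or_false] at hz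
      rw [hz]
      exact hx
    have hw : ∀ x, ∃ w, (∃ w', w' ∈ A1 ∧ H.Adj x w') → (w ∈ A1 ∧ H.Adj x w) := by
      intro x
      by_cases hex : ∃ w', w' ∈ A1 ∧ H.Adj x w'
      · obtain ⟨w, hw⟩ := hex
        exact ⟨w, fun _ => hw⟩
      · exact ⟨x, fun h1 => absurd h1 hex⟩
    choose f hf using hw
    set κ' : V → ZMod 2 := fun x => if x ∈ A1 then ρ x else ρ (f x) + c s(x, f x) with hκ'
    have k1 : ∀ x, x ∈ A1 → κ' x = ρ x := by
      intro x hx; rw [hκ']; simp only [if_pos hx]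
    have k2 : ∀ x, x ∉ A1 → κ' x = ρ (f x) + c s(x, f x) := by
      intro x hx; rw [hκ']; simp only [if_neg hx]
    have g1 : ∀ x y, x ∉ A1 → y ∈ A1 → H.Adj x y → c s(x, y) = κ' x + κ' y := by
      intro x y hx hy hxy
      have h1 := hf x ⟨y, hy, hxy⟩
      have h2 := huniq x (f x) y hx h1.1 hy h1.2 hxy
      rw [k2 x hx, k1 y hy, h2, add_comm (ρ y), add_assoc, CharTwo.add_self_eq_zero, add_zero]
    apply hnb κ'
    intro u v hu hvk huv
    have huk : u ≠ k := fun h => hkR (h ▸ hu)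
    have hH' : H.Adj u v := hHadj.2 ⟨huv, Or.inl hu, huk, hvk⟩
    by_cases huA : u ∈ A1
    · by_cases hvA : v ∈ A1
      · rw [k1 u huA, k1 v hvA]; exact hedge u huA v hvA hH'
      · rw [Sym2.eq_swap, add_comm]; exact g1 v u hvA huA hH'.symm
    · by_cases hvA : v ∈ A1
      · exact g1 u v huA hvA hH'
      · exact absurd hH' (hout u v hu huA hvA)

/-- The path of `flex` as a path of `G`. -/
theorem flex' [Finite V] {G : SimpleGraph V} {c : Sym2 V → ZMod 2} {U R : Set V} {a b k : V}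
    (he : ∀ u v, G.Adj u v → u ∈ U)
    (hconn : ∀ Y ⊆ U, 2 ≤ Y.ncard → (Nb G Y).ncard ≤ 2 → (U \ (Y ∪ Nb G Y)).ncard ≤ 1)
    (hR : R ⊆ U) (hN : Nb G R = {a, b, k}) (hab : a ≠ b) (hak : a ≠ k) (hbk : b ≠ k)
    (hrest : (U \ (R ∪ Nb G R)).Nonempty)
    (hnb : ∀ κ : V → ZMod 2, ¬ ∀ u v, u ∈ R → v ≠ k → G.Adj u v → c s(u, v) = κ u + κ v)
    (t : ZMod 2) :
    ∃ p : G.Walk a b, p.IsPath ∧ wt c p = t ∧
      (∀ x ∈ p.support, (x ∈ R ∨ x = a ∨ x = b) ∧ x ≠ k) ∧
      ∀ x y, s(x, y) ∈ p.edges → x ∈ R ∨ y ∈ R := by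
  obtain ⟨p, hp, hw, hs⟩ := flex he hconn hR hN hab hak hbk hrest hnb t
  have hle : restr G R ≤ G := fun _ _ h => h.1
  refine ⟨p.mapLe hle, hp.mapLe hle, ?_, ?_, ?_⟩
  · rw [wt_mapLe]; exact hw
  · intro x hx
    rw [Walk.support_mapLe_eq_support] at hx
    exact hs x hx
  · intro x y hxy
    rw [Walk.edges_mapLe_eq_edges] at hxy
    exact (Walk.adj_of_mem_edges _ hxy).2

end Pool.Agent.Helper73.C3
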