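import Pool.Agent.Helper73.C3.Flex
import Pool.Agent.Helper1.GL.Weak

/-!
# A terminal apex

Let `Nb G W = {a, b, z}` and let `κ` be a potential of the edges which meet `W` and avoid `z`. If
`fden W ≥ 2` then there is a frame with the two copies of `z` and `a`, `b` as terminals
(`apex_frame`), and a path `a .. b` with the wrong label outside `W ∪ {z}` gives a TOK4
(`apex_tok`).
-/

set_option autoImplicit false

namespace Pool.Agent.Helper73.C3

open SimpleGraph Pool.Agent.Helper57.TOK Pool.Agent.Helper57.TD Pool.Agent.Helper82.TK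
  Pool.Agent.Helper1.TD Pool.Agent.Helper1.GL

variable {V : Type*}

lemma fden_odG_restr [Finite V] (G : SimpleGraph V) (c : Sym2 V → ZMod 2) {W Y : Set V}
    (h : Y ⊆ W) : fden (odG (restr G W) c) Y = fden (odG G c) Y := by
  unfold fden rho
  have : EAt (odG (restr G W) c) Y = EAt (odG G c) Y := by
    ext e
    induction e using Sym2.ind with
    | _ u v =>
      rw [mem_EAt, mem_EAt, odG_adj, odG_adj, restr_adj]
      constructor
      · rintro ⟨⟨⟨h1, -⟩, h2⟩, h3⟩
        exact ⟨⟨h1, h2⟩, h3⟩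
      · rintro ⟨⟨h1, h2⟩, h3⟩
        exact ⟨⟨⟨h1, h3.imp (fun h4 => h h4) (fun h4 => h h4)⟩, h2⟩, h3⟩
  rw [this]

/-- The frame of a terminal apex. -/
theorem apex_frame [Finite V] {G : SimpleGraph V} {c : Sym2 V → ZMod 2} {κ : V → ZMod 2}
    {U W : Set V} {z a b : V}
    (he : ∀ u v, G.Adj u v → u ∈ U)
    (hdeg : ∀ y ∈ U, 2 ≤ (G.neighborSet y).ncard)
    (hconn : ∀ Y ⊆ U, 2 ≤ Y.ncard → (Nb G Y).ncard ≤ 2 → (U \ (Y ∪ Nb G Y)).ncard ≤ 1)
    (hW : W ⊆ U) (hN : Nb G W = {a, b, z}) (hab : a ≠ b) (haz : a ≠ z) (hbz : b ≠ z)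
    (hrest : (U \ (W ∪ Nb G W)).Nonempty)
    (hκ : ∀ u v, u ∈ W → v ≠ z → G.Adj u v → c s(u, v) = κ u + κ v)
    (hsp : ∀ Y ⊆ W, 2 ≤ Y.ncard → (Nb G Y).ncard = 3 → ∀ κ', BalOn G c Y κ' →
      fden (odG G c) Y ≤ beta κ' (Nb G Y))
    (hf : 2 ≤ fden (odG G c) W) :
    FrameE (spG (restr G W) c κ {z}) Prod.snd (z, 0) (z, 1) (lft κ a) (lft κ b) := by
  classical
  obtain ⟨m, hmU, hmRN⟩ := hrest
  have haN : a ∈ Nb G W := by rw [hN]; simp
  have hbN : b ∈ Nb G W := by rw [hN]; simp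
  have hzN : z ∈ Nb G W := by rw [hN]; simp
  have haW : a ∉ W := haN.1
  have hbW : b ∉ W := hbN.1
  have hzW : z ∉ W := hzN.1
  have hNU : ∀ x ∈ Nb G W, x ∈ U := by
    rintro x ⟨-, y, -, hyx⟩
    exact he x y hyx.symm
  have hκoff : BalOff (restr G W) c {z} κ := by
    intro u v hu hv huv
    rw [Set.mem_singleton_iff] at hu hv
    rcases huv.2 with h1 | h1
    · exact hκ u v h1 hv huv.1
    · rw [Sym2.eq_swap, add_comm]; exact hκ v u h1 hu huv.1.symm
  have hdis : Disjoint W ({z} : Set V) := by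
    rw [Set.disjoint_left]
    rintro x hx hxz
    rw [Set.mem_singleton_iff] at hxz
    exact hzW (hxz ▸ hx)
  set Z : SimpleGraph (V × ZMod 2) := spG (restr G W) c κ {z} with hZ
  set T : Set (V × ZMod 2) := {(z, 0), (z, 1), lft κ a, lft κ b} with hT
  set S : Set (V × ZMod 2) := lft κ '' W with hS
  have hTnd : T.ncard = 4 := by
    have h0 : (z, (0 : ZMod 2)) ≠ (z, 1) := fun h => zero_ne_one (congrArg Prod.snd h)
    have h1 : ∀ i : ZMod 2, (z, i) ≠ lft κ a := fun i h => haz (congrArg Prod.fst h).symm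
    have h2 : ∀ i : ZMod 2, (z, i) ≠ lft κ b := fun i h => hbz (congrArg Prod.fst h).symm
    have h3 : lft κ a ≠ lft κ b := fun h => hab (lft_injective κ h)
    rw [hT, Set.ncard_insert_of_notMem, Set.ncard_insert_of_notMem, Set.ncard_pair h3]
    · simp only [Set.mem_insert_iff, Set.mem_singleton_iff, not_or]
      exact ⟨h1 1, h2 1⟩
    · simp only [Set.mem_insert_iff, Set.mem_singleton_iff, not_or]
      exact ⟨h0, h1 0, h2 0⟩
  have hTmem : ∀ y : V × ZMod 2, (y.1 = z ∨ (y.1 = a ∧ y.2 = κ a) ∨ (y.1 = b ∧ y.2 = κ b)) →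
      y ∈ T := by
    rintro ⟨v, i⟩ (h1 | ⟨h1, h2⟩ | ⟨h1, h2⟩)
    · simp only at h1
      subst h1
      rcases Helper82.TK.zmod2_cases i with rfl | rfl
      · exact Or.inl rfl
      · exact Or.inr (Or.inl rfl)
    · simp only at h1 h2
      subst h1 h2
      exact Or.inr (Or.inr (Or.inl rfl))
    · simp only at h1 h2
      subst h1 h2
      exact Or.inr (Or.inr (Or.inr rfl))
  have hedge : ∀ x y, Z.Adj x y → x ∈ S ∪ T := by
    intro x y hxy
    by_cases hx : x.1 ∈ W
    · left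
      refine ⟨x.1, hx, ?_⟩
      have h1 : x.1 ∉ ({z} : Set V) := fun h => hzW (h ▸ hx)
      rw [Prod.ext_iff]
      exact ⟨rfl, (hxy.2.2.1 h1).symm⟩
    · right
      have h1 : x.1 ∈ Nb G W := ⟨hx, y.1, hxy.1.2.resolve_left hx, hxy.1.1.symm⟩
      rw [hN] at h1
      apply hTmem
      rcases h1 with h1 | h1 | h1
      · right; left
        refine ⟨h1, ?_⟩
        rw [hxy.2.2.1 (fun h => haz (h1.symm.trans h)), h1]
      · right; right
        refine ⟨h1, ?_⟩
        rw [hxy.2.2.1 (fun h => hbz (h1.symm.trans h)), h1]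
      · exact Or.inl h1
  have hedgeS : ∀ x y, Z.Adj x y → x ∈ S ∨ y ∈ S := by
    have key : ∀ x y, Z.Adj x y → x.1 ∈ W → x ∈ S := by
      intro x y hxy hx
      refine ⟨x.1, hx, ?_⟩
      have h1 : x.1 ∉ ({z} : Set V) := fun h => hzW (h ▸ hx)
      rw [Prod.ext_iff]
      exact ⟨rfl, (hxy.2.2.1 h1).symm⟩
    intro x y hxy
    rcases hxy.1.2 with h1 | h1
    · exact Or.inl (key x y hxy h1)
    · exact Or.inr (key y x hxy.symm h1)
  have hfst : ∀ Y ⊆ W, Prod.fst '' Nb Z (lft κ '' Y) = Nb G Y := by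
    intro Y hY
    rw [hZ, fst_image_Nb hκoff (hdis.mono_left hY), Nb_restr G hY]
  have hNbcard : ∀ Y ⊆ W, (Nb G Y).ncard ≤ (Nb Z (lft κ '' Y)).ncard := by
    intro Y hY
    rw [← hfst Y hY]
    exact Set.ncard_image_le (Set.toFinite _)
  have hlift : ∀ Y' ⊆ S, ∃ Y ⊆ W, Y' = lft κ '' Y ∧ Y.ncard = Y'.ncard := by
    intro Y' hY'
    obtain ⟨Y, hY, hYY⟩ := (Set.subset_image_iff).1 hY'
    exact ⟨Y, hY, hYY.symm, by rw [← hYY, Set.ncard_image_of_injective _ (lft_injective κ)]⟩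
  have hthree : ∀ Y ⊆ W, 2 ≤ Y.ncard → 3 ≤ (Nb G Y).ncard := by
    intro Y hY h2
    by_contra hlt
    have hr := hconn Y (hY.trans hW) h2 (by omega)
    have hmr : m ∈ U \ (Y ∪ Nb G Y) := by
      refine ⟨hmU, ?_⟩
      rintro (h1 | ⟨-, u, hu, hum⟩)
      · exact hmRN (Or.inl (hY h1))
      · by_cases hmW : m ∈ W
        · exact hmRN (Or.inl hmW)
        · exact hmRN (Or.inr ⟨hmW, u, hY hu, hum⟩)
    have hall : ∀ x ∈ Nb G W, x ∈ Nb G Y := by
      intro x hx
      by_contra hxN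
      have h1 : x ∈ U \ (Y ∪ Nb G Y) := ⟨hNU x hx, fun h => h.elim (fun h2 => hx.1 (hY h2)) hxN⟩
      have h2 := eq_of_ncard_le_one hr h1 hmr
      exact hmRN (Or.inr (h2 ▸ hx))
    have h3 : (Nb G W).ncard = 3 := by
      rw [hN, Set.ncard_insert_of_notMem, Set.ncard_pair hbz]
      simp only [Set.mem_insert_iff, Set.mem_singleton_iff, not_or]
      exact ⟨hab, haz⟩
    have h4 := Set.ncard_le_ncard hall (Set.toFinite _)
    omega
  have hdegS : ∀ s ∈ S, 2 ≤ (Z.neighborSet s).ncard := by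
    rintro _ ⟨u, hu, rfl⟩
    have h1 := hdeg u (hW hu)
    have huz : u ∉ ({z} : Set V) := fun h => hzW (h ▸ hu)
    have h2 : G.neighborSet u = Prod.fst '' Z.neighborSet (lft κ u) := by
      ext v
      constructor
      · intro hv
        refine ⟨(v, κ u + c s(u, v)), ?_, rfl⟩
        rw [SimpleGraph.mem_neighborSet, hZ, spG_adj_lft hκoff huz]
        exact ⟨⟨hv, Or.inl hu⟩, rfl⟩
      · rintro ⟨y, hy, rfl⟩
        exact hy.1.1
    rw [h2] at h1
    exact h1.trans (Set.ncard_image_le (Set.toFinite _))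
  have hnotmono : ¬ Mono Prod.snd T := by
    intro hm
    have := hm (z, 0) (by simp [hT]) (z, 1) (by simp [hT])
    exact zero_ne_one this
  have hsoc : Soc false Z Prod.snd S T := by
    refine ⟨hTnd, ?_, hedge, hedgeS, ?_, ?_, ?_, hdegS, ?_⟩
    · rw [Set.disjoint_left]
      rintro _ ⟨u, hu, rfl⟩ hT'
      rcases hT' with h1 | h1 | h1 | h1
      · have h2 : u = z := congrArg Prod.fst h1
        exact hzW (h2 ▸ hu)
      · have h2 : u = z := congrArg Prod.fst h1
        exact hzW (h2 ▸ hu)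
      · have h2 : u = a := congrArg Prod.fst h1
        exact haW (h2 ▸ hu)
      · have h2 : u = b := congrArg Prod.fst (h1 : lft κ u = lft κ b)
        exact hbW (h2 ▸ hu)
    · show beta Prod.snd T + 1 ≤ fO Z Prod.snd S
      rw [beta_of_not_mono hnotmono, hTnd, hS, hZ, fO_lft hκoff hdis,
        fden_odG_restr G c subset_rfl]
      norm_num
      exact hf
    · intro h; exact absurd h (by decide)
    · intro Y' hY' hne hN3
      obtain ⟨Y, hY, rfl, hcard⟩ := hlift Y' hY'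
      have hdY := hdis.mono_left hY
      by_cases h2 : 2 ≤ Y.ncard
      · have hNG := (hNbcard Y hY).trans hN3
        have hNG3 := hthree Y hY h2
        have hNG' : (Nb G Y).ncard = 3 := by omega
        have hNZ : (Nb Z (lft κ '' Y)).ncard = 3 := by
          have := hNbcard Y hY
          omega
        have hinj : Set.InjOn Prod.fst (Nb Z (lft κ '' Y)) := by
          rw [← Set.ncard_image_iff (Set.toFinite _), hfst Y hY, hNG', hNZ]
        have hmem : ∀ {y : V × ZMod 2}, y ∈ Nb Z (lft κ '' Y) ↔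
            y.1 ∉ Y ∧ ∃ u ∈ Y, (restr G W).Adj u y.1 ∧ y.2 = κ u + c s(u, y.1) := by
          intro y
          rw [hZ]
          exact mem_Nb_lft hκoff hdY
        -- the colouring
        let κ' : V → ZMod 2 := fun v => if v ∈ Y then κ v else
          if (v, (1 : ZMod 2)) ∈ Nb Z (lft κ '' Y) then 1 else 0
        have hκN : ∀ y ∈ Nb Z (lft κ '' Y), κ' y.1 = y.2 := by
          intro y hy
          have hyY : y.1 ∉ Y := (hmem.1 hy).1
          show (if y.1 ∈ Y then κ y.1 else _) = _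
          rw [if_neg hyY]
          obtain ⟨a, i⟩ := y
          rcases Helper82.TK.zmod2_cases i with rfl | rfl
          · rw [if_neg]
            intro h3
            have := hinj hy h3 rfl
            rw [Prod.mk.injEq] at this
            exact zero_ne_one this.2
          · rw [if_pos hy]
        have hbal : BalOn G c Y κ' := by
          intro u v hu huv
          have e1 : κ' u = κ u := if_pos hu
          by_cases hv : v ∈ Y
          · have e2 : κ' v = κ v := if_pos hv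
            rw [e1, e2]
            exact hκ u v (hY hu) (fun h => hzW (h ▸ hY hv)) huv
          · have hm' : (v, κ u + c s(u, v)) ∈ Nb Z (lft κ '' Y) := by
              rw [hmem]
              exact ⟨hv, u, hu, ⟨huv, Or.inl (hY hu)⟩, rfl⟩
            have e2 := hκN _ hm'
            rw [e1, e2, ← add_assoc, zz, zero_add]
        have hs := hsp Y hY h2 hNG' κ' hbal
        rw [hZ, fO_lft hκoff hdY, fden_odG_restr G c hY, ← hZ]
        refine hs.trans (le_of_eq ?_)
        have hm : Mono κ' (Nb G Y) ↔ Mono Prod.snd (Nb Z (lft κ '' Y)) := by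
          rw [← hfst Y hY]
          constructor
          · intro hm x hx y hy
            rw [← hκN x hx, ← hκN y hy]
            exact hm _ ⟨x, hx, rfl⟩ _ ⟨y, hy, rfl⟩
          · rintro hm _ ⟨x, hx, rfl⟩ _ ⟨y, hy, rfl⟩
            rw [hκN x hx, hκN y hy]
            exact hm x hx y hy
        by_cases h3 : Mono κ' (Nb G Y)
        · rw [beta_of_mono h3, beta_of_mono (hm.1 h3), hNG', hNZ]
        · rw [beta_of_not_mono h3, beta_of_not_mono (fun h4 => h3 (hm.2 h4)), hNG', hNZ]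
      · have h1 : (lft κ '' Y).ncard = 1 := by
          have := (Set.ncard_pos (Set.toFinite _)).2 hne
          omega
        obtain ⟨s, hs⟩ := Set.ncard_eq_one.1 h1
        rw [hs]
        apply fO_singleton_le
        rw [← Set.ncard_pos (Set.toFinite _)]
        have := hdegS s (hY' (by rw [hs]; rfl))
        omega
    · intro Y' hY' h2
      obtain ⟨Y, hY, rfl, hcard⟩ := hlift Y' hY'
      rw [← hcard] at h2
      exact (hthree Y hY h2).trans (hNbcard Y hY)
  have hfr : AllFramesE Z Prod.snd T := theoremD _ _ _ _ hsoc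
  exact hfr (z, 0) (by simp [hT]) (z, 1) (by simp [hT]) (lft κ a) (by simp [hT]) (lft κ b)
    (by simp [hT]) (fun h => zero_ne_one (congrArg Prod.snd h))
    (fun h => haz (congrArg Prod.fst h).symm) (fun h => hbz (congrArg Prod.fst h).symm)
    (fun h => haz (congrArg Prod.fst h).symm) (fun h => hbz (congrArg Prod.fst h).symm)
    (fun h => hab (lft_injective κ h))

/-- The graph `restr G W` with the additional edge `a b`. -/
def capG (G : SimpleGraph V) (W : Set V) (a b : V) (hab : a ≠ b) : SimpleGraph V where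
  Adj x y := (restr G W).Adj x y ∨ (x = a ∧ y = b) ∨ (x = b ∧ y = a)
  symm := ⟨by
    rintro x y (h | ⟨h1, h2⟩ | ⟨h1, h2⟩)
    · exact Or.inl h.symm
    · exact Or.inr (Or.inr ⟨h2, h1⟩)
    · exact Or.inr (Or.inl ⟨h2, h1⟩)⟩
  loopless := ⟨by
    rintro x (h | ⟨h1, h2⟩ | ⟨h1, h2⟩)
    · exact h.ne rfl
    · exact hab (h1.symm.trans h2)
    · exact hab (h2.symm.trans h1)⟩

/-- The labels: `c` on the edges of `G`, the wrong label on `a b`. -/
noncomputable def capL (c : Sym2 V → ZMod 2) (κ : V → ZMod 2) (a b : V) : Sym2 V → ZMod 2 :=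
  open Classical in fun e => if e = s(a, b) then κ a + κ b + 1 else c e

/-- Contraction of the frame of an apex. -/
theorem cap_of_frame {G : SimpleGraph V} {c : Sym2 V → ZMod 2} {κ : V → ZMod 2} {W : Set V}
    {z a b : V} (hab : a ≠ b) (haz : a ≠ z) (hbz : b ≠ z) (haW : a ∉ W) (hbW : b ∉ W)
    (hzW : z ∉ W)
    (hF : FrameE (spG (restr G W) c κ {z}) Prod.snd (z, 0) (z, 1) (lft κ a) (lft κ b)) :
    HasTOK4s (capG G W a b hab) (capL c κ a b) := by
  classical
  set Z : SimpleGraph (V × ZMod 2) := spG (restr G W) c κ {z} with hZ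
  have hF' : HasTOK4s (frameG Z (z, 0) (z, 1) (lft κ a) (lft κ b)) (cE Z Prod.snd) := hF
  rw [hasTOK4s_iff_isTOK] at hF'
  obtain ⟨v, P, h⟩ := hF'
  have hZW : ∀ x y, Z.Adj x y → x.1 ∈ W ∨ y.1 ∈ W := fun x y hxy => hxy.1.2
  have hcase : ∀ x y, (frameG Z (z, 0) (z, 1) (lft κ a) (lft κ b)).Adj x y → Z.Adj x y ∨
      (s(x, y) = s((z, 0), (z, 1)) ∧ ¬ Z.Adj x y) ∨ (s(x, y) = s(lft κ a, lft κ b) ∧
        ¬ Z.Adj x y) := by
    rintro x y ⟨hne, h1 | h1 | h1⟩
    · exact Or.inl h1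
    · right; left
      refine ⟨h1, fun h2 => ?_⟩
      have h3 := hZW x y h2
      rw [Sym2.eq_iff] at h1
      rcases h1 with ⟨rfl, rfl⟩ | ⟨rfl, rfl⟩
      · exact h3.elim hzW hzW
      · exact h3.elim hzW hzW
    · right; right
      refine ⟨h1, fun h2 => ?_⟩
      have h3 := hZW x y h2
      rw [Sym2.eq_iff] at h1
      rcases h1 with ⟨rfl, rfl⟩ | ⟨rfl, rfl⟩
      · exact h3.elim haW hbW
      · exact h3.elim hbW haW
  have hsupp : ∀ x, x ∈ supp (frameG Z (z, 0) (z, 1) (lft κ a) (lft κ b)) →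
      x.1 = z ∨ x.2 = κ x.1 := by
    rintro x ⟨y, hy⟩
    rcases hcase x y hy with h1 | ⟨h1, -⟩ | ⟨h1, -⟩
    · by_cases hx : x.1 = z
      · exact Or.inl hx
      · exact Or.inr (h1.2.2.1 hx)
    · left
      rw [Sym2.eq_iff] at h1
      rcases h1 with ⟨rfl, -⟩ | ⟨rfl, -⟩ <;> rfl
    · right
      rw [Sym2.eq_iff] at h1
      rcases h1 with ⟨rfl, -⟩ | ⟨rfl, -⟩ <;> rfl
  have hused : ∃ i j : Fin 4, i < j ∧ s((z, (0 : ZMod 2)), (z, 1)) ∈ (P i j).edges := by
    by_contra hcon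
    push Not at hcon
    obtain ⟨a', b', d, f, hab', hdf, n1, n2, n3, n4, h1, h2⟩ := h.two_virt (κ := Prod.snd)
      (Vt := fun e => e = s((z, 0), (z, 1)) ∨ e = s(lft κ a, lft κ b)) (by
        intro x y hxy hn
        rcases hcase x y hxy with h1 | ⟨h1, -⟩ | ⟨h1, -⟩
        · exact cE_of_adj h1
        · exact absurd (Or.inl h1) hn
        · exact absurd (Or.inr h1) hn) (f1 := s(lft κ a, lft κ b)) (f2 := s(lft κ a, lft κ b))
      (by
        rintro i j hij e he (h3 | h3)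
        · exact absurd (h3 ▸ he) (hcon i j hij)
        · exact Or.inl h3)
    have h5 := h.uniq hab' hdf h1 h2
    exact n1 (congrArg Prod.fst h5)
  refine h.project Prod.fst ?_ ?_
  · intro x y hxy
    rcases hcase x y hxy with h1 | ⟨h1, h2⟩ | ⟨h1, h2⟩
    · left
      refine ⟨Or.inl h1.1, ?_⟩
      rw [cE_of_adj h1]
      show x.2 + y.2 = capL c κ a b s(x.1, y.1)
      unfold capL
      rw [if_neg]
      · exact h1.2.1
      · intro h3
        rw [Sym2.eq_iff] at h3
        rcases h3 with ⟨h3, h4⟩ | ⟨h3, h4⟩ <;> rcases hZW x y h1 with h5 | h5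
        · exact haW (h3 ▸ h5)
        · exact hbW (h4 ▸ h5)
        · exact hbW (h3 ▸ h5)
        · exact haW (h4 ▸ h5)
    · right
      rw [cE_of_not_adj h2]
      have e1 : (1 : ZMod 2) + 0 + 1 = 0 := by decide
      have e2 : (1 : ZMod 2) + 1 + 0 = 0 := by decide
      rw [Sym2.eq_iff] at h1
      rcases h1 with ⟨rfl, rfl⟩ | ⟨rfl, rfl⟩
      · exact ⟨rfl, e1⟩
      · exact ⟨rfl, e2⟩
    · left
      rw [cE_of_not_adj h2]
      have key : capL c κ a b s(a, b) = κ a + κ b + 1 := by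
        unfold capL; rw [if_pos rfl]
      rw [Sym2.eq_iff] at h1
      rcases h1 with ⟨rfl, rfl⟩ | ⟨rfl, rfl⟩
      · refine ⟨Or.inr (Or.inl ⟨rfl, rfl⟩), ?_⟩
        show 1 + κ a + κ b = capL c κ a b s(a, b)
        rw [key]; ring
      · refine ⟨Or.inr (Or.inr ⟨rfl, rfl⟩), ?_⟩
        show 1 + κ b + κ a = capL c κ a b s(b, a)
        rw [Sym2.eq_swap, key]; ring
  · intro x y hx hy hne hxy
    obtain ⟨a', i⟩ := x
    obtain ⟨b', j⟩ := y
    simp only at hxy
    subst hxy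
    have hij : i ≠ j := fun hh => hne (by rw [hh])
    have hD : a' = z := by
      rcases hsupp _ hx with h1 | h1
      · exact h1
      · rcases hsupp _ hy with h2 | h2
        · exact h2
        · exact absurd (h1.trans h2.symm) hij
    subst hD
    rcases Helper82.TK.zmod2_cases i with rfl | rfl <;>
      rcases Helper82.TK.zmod2_cases j with rfl | rfl
    · exact absurd rfl hij
    · exact hused
    · rw [Sym2.eq_swap]; exact hused
    · exact absurd rfl hij

/-- The additional edge is replaced by a path. -/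
theorem tok_of_cap {G : SimpleGraph V} {c : Sym2 V → ZMod 2} {κ : V → ZMod 2} {W : Set V}
    {z a b : V} (hN : Nb G W = {a, b, z}) (hab : a ≠ b)
    (hT : HasTOK4s (capG G W a b hab) (capL c κ a b)) (Q : G.Walk a b) (hQ : Q.IsPath)
    (hw : wt c Q = κ a + κ b + 1) (hs : ∀ x ∈ Q.support, x ∉ W ∧ x ≠ z) : HasTOK4s G c := by
  classical
  have haN : a ∈ Nb G W := by rw [hN]; simp
  have hbN : b ∈ Nb G W := by rw [hN]; simp
  have hsupp : ∀ x ∈ supp (capG G W a b hab), x ∈ W ∨ x = a ∨ x = b ∨ x = z := by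
    rintro x ⟨y, (⟨h1, h2⟩ | ⟨h1, -⟩ | ⟨h1, -⟩)⟩
    · by_cases hx : x ∈ W
      · exact Or.inl hx
      · right
        have h3 : x ∈ Nb G W := ⟨hx, y, h2.resolve_left hx, h1.symm⟩
        rw [hN] at h3
        exact h3
    · exact Or.inr (Or.inl h1)
    · exact Or.inr (Or.inr (Or.inl h1))
  refine HasTOK4s.subst (K := capG G W a b hab) (φ := id) (lab := fun _ => s(a, b))
    (Set.injOn_id _) ?_ hT
  intro u w huw
  have main : ∀ R : G.Walk a b, R = Q → ∀ x ∈ R.support, x = a ∨ x = b ∨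
      (s(a, b) = s(a, b) ∧ x ∉ id '' supp (capG G W a b hab)) := by
    rintro R rfl x hx
    by_cases h1 : x = a
    · exact Or.inl h1
    by_cases h2 : x = b
    · exact Or.inr (Or.inl h2)
    refine Or.inr (Or.inr ⟨rfl, ?_⟩)
    rw [Set.image_id]
    intro h3
    rcases hsupp x h3 with h4 | h4 | h4 | h4
    · exact (hs x hx).1 h4
    · exact h1 h4
    · exact h2 h4
    · exact (hs x hx).2 h4
  have key : capL c κ a b s(a, b) = κ a + κ b + 1 := by
    unfold capL; rw [if_pos rfl]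
  rcases huw with h1 | ⟨rfl, rfl⟩ | ⟨rfl, rfl⟩
  · refine ⟨Walk.cons h1.1 Walk.nil, ?_, ?_, ?_⟩
    · rw [Walk.cons_isPath_iff]
      refine ⟨Walk.IsPath.nil, ?_⟩
      simp only [Walk.support_nil, List.mem_cons, List.not_mem_nil, or_false]
      exact h1.1.ne
    · rw [wt_cons, wt_nil, add_zero]
      show c s(u, w) = capL c κ a b s(u, w)
      unfold capL
      rw [if_neg]
      intro h3
      rw [Sym2.eq_iff] at h3
      rcases h3 with ⟨h3, h4⟩ | ⟨h3, h4⟩ <;> rcases h1.2 with h5 | h5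
      · exact haN.1 (h3 ▸ h5)
      · exact hbN.1 (h4 ▸ h5)
      · exact hbN.1 (h3 ▸ h5)
      · exact haN.1 (h4 ▸ h5)
    · intro x hx
      simp only [Walk.support_cons, Walk.support_nil, List.mem_cons, List.not_mem_nil,
        or_false] at hx
      rcases hx with h2 | h2
      · exact Or.inl h2
      · exact Or.inr (Or.inl h2)
  · exact ⟨Q, hQ, by rw [key]; exact hw, main Q rfl⟩
  · refine ⟨Q.reverse, hQ.reverse, ?_, ?_⟩
    · rw [wt_reverse, Sym2.eq_swap, key]; exact hw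
    · intro x hx
      rw [Walk.support_reverse, List.mem_reverse] at hx
      rcases main Q rfl x hx with h2 | h2 | h2
      · exact Or.inr (Or.inl h2)
      · exact Or.inl h2
      · exact Or.inr (Or.inr ⟨Sym2.eq_swap, h2.2⟩)

/-- **Terminal apex.** -/
theorem apex_tok [Finite V] {G : SimpleGraph V} {c : Sym2 V → ZMod 2} {κ : V → ZMod 2}
    {U W : Set V} {z a b : V}
    (he : ∀ u v, G.Adj u v → u ∈ U)
    (hdeg : ∀ y ∈ U, 2 ≤ (G.neighborSet y).ncard)
    (hconn : ∀ Y ⊆ U, 2 ≤ Y.ncard → (Nb G Y).ncard ≤ 2 → (U \ (Y ∪ Nb G Y)).ncard ≤ 1)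
    (hW : W ⊆ U) (hN : Nb G W = {a, b, z}) (hab : a ≠ b) (haz : a ≠ z) (hbz : b ≠ z)
    (hrest : (U \ (W ∪ Nb G W)).Nonempty)
    (hκ : ∀ u v, u ∈ W → v ≠ z → G.Adj u v → c s(u, v) = κ u + κ v)
    (hsp : ∀ Y ⊆ W, 2 ≤ Y.ncard → (Nb G Y).ncard = 3 → ∀ κ', BalOn G c Y κ' →
      fden (odG G c) Y ≤ beta κ' (Nb G Y))
    (hf : 2 ≤ fden (odG G c) W) (Q : G.Walk a b) (hQ : Q.IsPath)
    (hw : wt c Q = κ a + κ b + 1) (hs : ∀ x ∈ Q.support, x ∉ W ∧ x ≠ z) : HasTOK4s G c := by
  have haN : a ∈ Nb G W := by rw [hN]; simp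
  have hbN : b ∈ Nb G W := by rw [hN]; simp
  have hzN : z ∈ Nb G W := by rw [hN]; simp
  exact tok_of_cap hN hab (cap_of_frame hab haz hbz haN.1 hbN.1 hzN.1
    (apex_frame he hdeg hconn hW hN hab haz hbz hrest hκ hsp hf)) Q hQ hw hs

end Pool.Agent.Helper73.C3
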