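import Pool.Agent.Helper1.GL.Basic

/-!
# One path of prescribed label

`one_path`: if `H` has two isolated vertices and no `a`-`b` path of label `t`, then there is a set
`A1` of vertices containing `a`, `b` with a potential `ρ` of the edges inside `A1`,
`ρ a + ρ b = t + 1`, such that every component outside `A1` is attached to at most one vertex.
-/

set_option autoImplicit false

namespace Pool.Agent.Helper73.C3

open SimpleGraph Pool.Agent.Helper57.TOK Pool.Agent.Helper57.TD Pool.Agent.Helper82.TK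
  Pool.Agent.Helper1.TD Pool.Agent.Helper1.GL

variable {V : Type*}

/-- The graph with an additional edge. -/
def addE (H : SimpleGraph V) (v m : V) (hvm : v ≠ m) : SimpleGraph V where
  Adj x y := H.Adj x y ∨ (x = v ∧ y = m) ∨ (x = m ∧ y = v)
  symm := ⟨by
    rintro x y (h | ⟨h1, h2⟩ | ⟨h1, h2⟩)
    · exact Or.inl h.symm
    · exact Or.inr (Or.inr ⟨h2, h1⟩)
    · exact Or.inr (Or.inl ⟨h2, h1⟩)⟩
  loopless := ⟨by
    rintro x (h | ⟨h1, h2⟩ | ⟨h1, h2⟩)
    · exact h.ne rfl
    · exact hvm (h1.symm.trans h2)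
    · exact hvm (h2.symm.trans h1)⟩

/-- A walk which starts in a closed set stays in it. -/
lemma walk_closed {H : SimpleGraph V} {S : Set V} (hS : ∀ x y, x ∈ S → H.Adj x y → y ∈ S)
    {a b : V} (p : H.Walk a b) (ha : a ∈ S) : ∀ x ∈ p.support, x ∈ S := by
  induction p with
  | nil =>
    intro x hx
    simp only [Walk.support_nil, List.mem_cons, List.not_mem_nil, or_false] at hx
    rwa [hx]
  | cons h q ih =>
    intro x hx
    rw [Walk.support_cons, List.mem_cons] at hx
    rcases hx with rfl | hx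
    · exact ha
    · exact ih (hS _ _ ha h) x hx

/-- **One path of prescribed label.** -/
theorem one_path [Finite V] {H : SimpleGraph V} {c : Sym2 V → ZMod 2} {a b v m : V}
    (hab : a ≠ b) (hav : a ≠ v) (ham : a ≠ m) (hbv : b ≠ v) (hbm : b ≠ m) (hvm : v ≠ m)
    (hv : ∀ x, ¬ H.Adj v x) (hm : ∀ x, ¬ H.Adj m x) (t : ZMod 2) :
    (∃ P : H.Walk a b, P.IsPath ∧ wt c P = t) ∨
    ∃ (A1 : Set V) (ρ : V → ZMod 2), a ∈ A1 ∧ b ∈ A1 ∧ v ∉ A1 ∧ m ∉ A1 ∧ ρ a + ρ b = t + 1 ∧
      (∀ u ∈ A1, ∀ w ∈ A1, H.Adj u w → c s(u, w) = ρ u + ρ w) ∧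
      (∀ u ∈ A1, ∀ w ∈ A1, u ≠ w → ∀ u' w', H.Adj u u' → H.Adj w w' →
        ∀ p : H.Walk u' w', (∀ x ∈ p.support, x ∉ A1) → False) := by
  classical
  set H' : SimpleGraph V := addE H v m hvm with hH'
  set c' : Sym2 V → ZMod 2 := fun e => if e = s(v, m) then 1 else c e with hc'
  set π : V → ZMod 2 := fun x => if x = b then t + 1 else 0 with hπ
  have hπb : π b = t + 1 := by rw [hπ]; simp
  have hπo : ∀ x, x ≠ b → π x = 0 := by
    intro x hx; rw [hπ]; simp only; rw [if_neg hx]
  have hc'of : ∀ x y, x ≠ v → y ≠ v → c' s(x, y) = c s(x, y) := by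
    intro x y hx hy
    rw [hc']
    simp only
    rw [if_neg]
    intro he
    rw [Sym2.eq_iff] at he
    rcases he with ⟨h1, -⟩ | ⟨-, h1⟩
    · exact hx h1
    · exact hy h1
  have hA : ({a, b, v, m} : Set V).ncard = 4 := by
    rw [Set.ncard_insert_of_notMem, Set.ncard_insert_of_notMem, Set.ncard_pair hvm]
    · simp only [Set.mem_insert_iff, Set.mem_singleton_iff, not_or]
      exact ⟨hbv, hbm⟩
    · simp only [Set.mem_insert_iff, Set.mem_singleton_iff, not_or]
      exact ⟨hab, hav, ham⟩
  rcases pack4 H' c' π {a, b, v, m} hA with hT | ⟨X, A1, B, ρ, hO⟩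
  · left
    obtain ⟨b0, a', b', hA', P, Q, hP, hQ, hPQ, -, -, -, hQw⟩ := hT.first (v := v) (by simp)
    have hcl : ∀ x y, x ∈ ({v, m} : Set V) → H'.Adj x y → y ∈ ({v, m} : Set V) := by
      rintro x y (rfl | hx) hxy
      · rcases hxy with h1 | ⟨-, h1⟩ | ⟨h1, -⟩
        · exact absurd h1 (hv y)
        · exact Or.inr h1
        · exact absurd h1 hvm
      · rw [Set.mem_singleton_iff] at hx
        subst hx
        rcases hxy with h1 | ⟨h1, -⟩ | ⟨-, h1⟩
        · exact absurd h1 (hm y)
        · exact absurd h1 hvm.symm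
        · exact Or.inl h1
    have hb0 : b0 = m := by
      have h1 := walk_closed hcl P (by simp) b0 P.end_mem_support
      rcases h1 with h1 | h1
      · exfalso
        rw [hA', h1] at hA
        have h2 : ({v, v, a', b'} : Set V) = {v, a', b'} := by simp
        rw [h2] at hA
        have := three_sub (S := {v, a', b'}) subset_rfl
        omega
      · exact h1
    subst hb0
    have hQv : ∀ x ∈ Q.support, x ≠ v := fun x hx hxv => hPQ v P.start_mem_support (hxv ▸ hx)
    have hQm : ∀ x ∈ Q.support, x ≠ b0 := fun x hx hxv => hPQ b0 P.end_mem_support (hxv ▸ hx)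
    have ha' : a' = a ∨ a' = b := by
      have h1 : a' ∈ ({a, b, v, b0} : Set V) := by rw [hA']; simp
      rcases h1 with h1 | h1 | h1 | h1
      · exact Or.inl h1
      · exact Or.inr h1
      · exact absurd h1 (hQv a' Q.start_mem_support)
      · exact absurd h1 (hQm a' Q.start_mem_support)
    have hb' : b' = a ∨ b' = b := by
      have h1 : b' ∈ ({a, b, v, b0} : Set V) := by rw [hA']; simp
      rcases h1 with h1 | h1 | h1 | h1
      · exact Or.inl h1
      · exact Or.inr h1
      · exact absurd h1 (hQv b' Q.end_mem_support)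
      · exact absurd h1 (hQm b' Q.end_mem_support)
    have hab' : a' ≠ b' := by
      intro hab'
      rw [hA', hab'] at hA
      have h1 : ({v, b0, b', b'} : Set V) = {v, b0, b'} := by simp
      rw [h1] at hA
      have := three_sub (S := {v, b0, b'}) subset_rfl
      omega
    have hQe : ∀ e ∈ Q.edges, e ∈ H.edgeSet ∧ c e = c' e := by
      intro e he
      induction e using Sym2.ind with
      | _ x y =>
        have hx := Walk.fst_mem_support_of_mem_edges _ he
        have hy := Walk.snd_mem_support_of_mem_edges _ he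
        have hxy : H'.Adj x y := Walk.adj_of_mem_edges _ he
        refine ⟨?_, (hc'of x y (hQv x hx) (hQv y hy)).symm⟩
        rcases hxy with h1 | ⟨h1, -⟩ | ⟨-, h1⟩
        · exact h1
        · exact absurd h1 (hQv x hx)
        · exact absurd h1 (hQv y hy)
    have hQG : ∃ R : H.Walk a' b', R.IsPath ∧ wt c R = π a' + π b' + 1 := by
      refine ⟨Q.transfer H (fun e he => (hQe e he).1), hQ.transfer _, ?_⟩
      rw [wt_transfer, ← hQw]
      exact wt_congr c c' Q (fun e he => (hQe e he).2)
    obtain ⟨R, hR1, hR2⟩ := hQG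
    have ht : ∀ s : ZMod 2, s + 1 + 1 = s := by decide
    rcases ha' with rfl | rfl <;> rcases hb' with rfl | rfl
    · exact absurd rfl hab'
    · refine ⟨R, hR1, ?_⟩
      rw [hR2, hπo a' hab, hπb, zero_add, ht]
    · refine ⟨R.reverse, hR1.reverse, ?_⟩
      rw [wt_reverse, hR2, hπo b' hab, hπb, add_zero, ht]
    · exact absurd rfl hab'
  · right
    have hvA : v ∈ A1 ∪ X := hO.A_sub (by simp)
    have hmA : m ∈ A1 ∪ X := hO.A_sub (by simp)
    have hvm' : H'.Adj v m := Or.inr (Or.inl ⟨rfl, rfl⟩)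
    have key : (v ∈ X ∨ m ∈ X) ∨ (v ∈ B ∧ m ∈ B) := by
      by_contra hcon
      rw [not_or, not_or] at hcon
      obtain ⟨⟨h1, h2⟩, h3⟩ := hcon
      have hv' := hvA.resolve_right h1
      have hm' := hmA.resolve_right h2
      have h4 := hO.edge v hv' m hm' hvm' h3
      rw [hO.pot v (by simp) hv', hO.pot m (by simp) hm', hπo v hbv.symm, hπo m hbm.symm,
        hc'] at h4
      simp at h4
    have hX : ∀ x ∈ X, x = v ∨ x = m := by
      intro x hx
      have hB := hO.B_empty ⟨x, hx⟩
      rcases key with (h1 | h1) | h1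
      · exact Or.inl (eq_of_ncard_le_one hO.X_le hx h1)
      · exact Or.inr (eq_of_ncard_le_one hO.X_le hx h1)
      · rw [hB] at h1
        exact absurd h1.1 (Set.notMem_empty _)
    have hone : ∀ u w, u ≠ v → u ≠ m → w ≠ v → w ≠ m → u ≠ w → ¬ (u ∈ B ∧ w ∈ B) := by
      rintro u w hu1 hu2 hw1 hw2 huw ⟨huB, hwB⟩
      have hXe : ¬ X.Nonempty := by
        intro hX
        rw [hO.B_empty hX] at huB
        exact huB
      have h1 : v ∈ B ∧ m ∈ B := by
        rcases key with (h1 | h1) | h1
        · exact absurd ⟨_, h1⟩ hXe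
        · exact absurd ⟨_, h1⟩ hXe
        · exact h1
      have h2 : ({u, w, v, m} : Set V).ncard = 4 := by
        rw [Set.ncard_insert_of_notMem, Set.ncard_insert_of_notMem, Set.ncard_pair hvm]
        · simp only [Set.mem_insert_iff, Set.mem_singleton_iff, not_or]
          exact ⟨hw1, hw2⟩
        · simp only [Set.mem_insert_iff, Set.mem_singleton_iff, not_or]
          exact ⟨huw, hu1, hu2⟩
      have h3 : ({u, w, v, m} : Set V) ⊆ B := by
        rintro x (rfl | rfl | rfl | rfl)
        · exact huB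
        · exact hwB
        · exact h1.1
        · exact h1.2
      have h4 := Set.ncard_le_ncard h3 (Set.toFinite _)
      have h5 := hO.B_le
      omega
    have haA : a ∈ A1 := by
      rcases hO.A_sub (show a ∈ ({a, b, v, m} : Set V) by simp) with h1 | h1
      · exact h1
      · rcases hX _ h1 with h2 | h2
        · exact absurd h2 hav
        · exact absurd h2 ham
    have hbA : b ∈ A1 := by
      rcases hO.A_sub (show b ∈ ({a, b, v, m} : Set V) by simp) with h1 | h1
      · exact h1
      · rcases hX _ h1 with h2 | h2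
        · exact absurd h2 hbv
        · exact absurd h2 hbm
    have hle : ∀ x y, H.Adj x y → H'.Adj x y := fun x y h => Or.inl h
    have hns : ∀ x y, H.Adj x y → y ≠ v ∧ y ≠ m := by
      intro x y hxy
      refine ⟨?_, ?_⟩
      · rintro rfl; exact hv x hxy.symm
      · rintro rfl; exact hm x hxy.symm
    refine ⟨{x | x ∈ A1 ∧ x ≠ v ∧ x ≠ m}, ρ, ⟨haA, hav, ham⟩, ⟨hbA, hbv, hbm⟩,
      fun h => h.2.1 rfl, fun h => h.2.2 rfl, ?_, ?_, ?_⟩
    · rw [hO.pot a (by simp) haA, hO.pot b (by simp) hbA, hπo a hab, hπb, zero_add]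
    · rintro u ⟨hu, hu1, hu2⟩ w ⟨hw, hw1, hw2⟩ huw
      rw [← hc'of u w hu1 hw1]
      exact hO.edge u hu w hw (hle _ _ huw) (hone u w hu1 hu2 hw1 hw2 huw.ne)
    · rintro u ⟨hu, hu1, hu2⟩ w ⟨hw, hw1, hw2⟩ huw u' w' huu hww p hp
      have hps : ∀ x ∈ p.support, x ∈ {x | x ≠ v ∧ x ≠ m} :=
        walk_closed (fun x y _ hxy => hns x y hxy) p (hns _ _ huu)
      have hmap : ∀ x ∈ (p.mapLe (fun x y h => hle x y h : H ≤ H')).support,
          x ∉ A1 ∧ x ∉ X := by
        intro x hx
        rw [Walk.support_mapLe_eq_support] at hx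
        have h1 := hps x hx
        refine ⟨fun h2 => hp x hx ⟨h2, h1.1, h1.2⟩, fun h2 => ?_⟩
        rcases hX x h2 with h3 | h3
        · exact h1.1 h3
        · exact h1.2 h3
      exact hone u w hu1 hu2 hw1 hw2 huw (hO.walk u hu w hw huw u' w' (hle _ _ huu)
        (hle _ _ hww) _ hmap)

end Pool.Agent.Helper73.C3
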